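import Pool.Agent.LibMT.Final

/-!
The reverse-and-duplicate identity `A_n = α(n+k; σ_{n,k,i})` for the monotone triangle
polynomial, in full generality.
-/

namespace Pool.Agent.Results.MP_b8c61a_co.ReverseDuplicate

/-- `a` is a monotone triangle with `n` rows and bottom row `κ`. The entry in row `p`,
position `q` is `a p q`, for `1 ≤ q ≤ p ≤ n`; all values of `a` outside this range are `0`, so
that distinct functions `a` are distinct triangles. -/
structure IsMonotoneTriangle (n : ℕ) (κ : Fin n → ℤ) (a : ℕ → ℕ → ℤ) : Prop where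
  strict : ∀ p q, 1 ≤ q → q < p → p ≤ n → a p q < a p (q + 1)
  interlace : ∀ p q, 1 ≤ q → q ≤ p → p < n → a (p + 1) q ≤ a p q ∧ a p q ≤ a (p + 1) (q + 1)
  bottom : ∀ q : Fin n, a n ((q : ℕ) + 1) = κ q
  outside : ∀ p q, ¬ (1 ≤ q ∧ q ≤ p ∧ p ≤ n) → a p q = 0

/-- `P` is the monotone triangle polynomial `α(n; k_1, …, k_n)`: at every strictly increasing
tuple of integers its value is the number of monotone triangles with that bottom row. -/
def IsAlpha (n : ℕ) (P : MvPolynomial (Fin n) ℚ) : Prop :=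
  ∀ κ : Fin n → ℤ, StrictMono κ →
    MvPolynomial.eval (fun i => (κ i : ℚ)) P = ({a | IsMonotoneTriangle n κ a}.ncard : ℚ)

/-- The sequence `σ_{n,k,i} = (1, …, i-1, i+k-1, i+k-1, …, i, i, i+k, …, n)`. -/
def sigma (n k i : ℕ) : List ℕ :=
  List.range' 1 (i - 1) ++ ((List.range' i k).reverse.flatMap fun x => [x, x]) ++
    List.range' (i + k) (n + 1 - (i + k))

theorem isMonotoneTriangle_iff {n : ℕ} (κ : Fin n → ℤ) (a : ℕ → ℕ → ℤ) :
    IsMonotoneTriangle n κ a ↔ LibMT.IsMTL n (List.ofFn κ) a := by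
  constructor
  · intro h
    refine ⟨h.strict, h.interlace, fun q h1 h2 => ?_, h.outside⟩
    have := h.bottom ⟨q - 1, by omega⟩
    have e : q - 1 + 1 = q := by omega
    simp only [e] at this
    rw [this, List.getD_eq_getElem _ _ (by simp; omega)]
    simp
  · intro h
    refine ⟨h.strict, h.interlace, fun q => ?_, h.outside⟩
    rw [h.bottom _ (by omega) (by omega), Nat.add_sub_cancel,
      List.getD_eq_getElem _ _ (by simp)]
    simp

theorem set_eq {n : ℕ} (κ : Fin n → ℤ) :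
    {a | IsMonotoneTriangle n κ a} = {a | LibMT.IsMTL n (List.ofFn κ) a} := by
  ext a
  exact isMonotoneTriangle_iff κ a

theorem finite_triangles {n : ℕ} {κ : Fin n → ℤ} (h : StrictMono κ) :
    {a | IsMonotoneTriangle n κ a}.Finite := by
  rw [set_eq]
  exact LibMT.finite_IsMTL (LibMT.SI_ofFn h) (by simp)

theorem isAlpha_of_forall {n : ℕ} {P : MvPolynomial (Fin n) ℚ}
    (hP : ∀ κ : Fin n → ℤ, MvPolynomial.eval (fun i => (κ i : ℚ)) P
      = LibMT.alphaN ℚ n (List.ofFn κ)) : IsAlpha n P := by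
  intro κ hκ
  rw [hP, set_eq, ← LibMT.alphaN_map (Int.castRingHom ℚ),
    ← LibMT.ncard_IsMTL (LibMT.SI_ofFn hκ) (by simp)]
  simp

theorem IsAlpha.unique {n : ℕ} {P Q : MvPolynomial (Fin n) ℚ} (hP : IsAlpha n P)
    (hQ : IsAlpha n Q) : P = Q :=
  LibMT.poly_unique fun κ hκ => by rw [hP κ hκ, hQ κ hκ]

theorem IsAlpha.eval {n : ℕ} {P : MvPolynomial (Fin n) ℚ} (hP : IsAlpha n P) (κ : Fin n → ℤ) :
    MvPolynomial.eval (fun i => (κ i : ℚ)) P = ((LibMT.alphaN ℤ n (List.ofFn κ) : ℤ) : ℚ) := by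
  obtain ⟨P₀, h₀⟩ := LibMT.exists_poly n
  rw [hP.unique (isAlpha_of_forall h₀), h₀, ← LibMT.alphaN_map (Int.castRingHom ℚ)]
  simp

theorem sigma_length {n k i : ℕ} (hk : k ≤ n) (hi : 1 ≤ i) (hin : i ≤ n - k + 1) :
    (sigma n k i).length = n + k := by
  unfold sigma
  simp only [List.length_append, List.length_range', List.length_flatMap, List.length_cons,
    List.length_nil, List.map_const', List.length_reverse, List.sum_replicate, smul_eq_mul]
  omega

/-- **The reverse-and-duplicate identity.** Monotone triangles with a strictly increasing bottom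
row are finite in number; the monotone triangle polynomial exists and is unique; and for all
`n ≥ 1`, `1 ≤ k ≤ n`, `1 ≤ i ≤ n-k+1` one has `α(n; 1, …, n) = α(n+k; σ_{n,k,i})`. -/
theorem result :
    (∀ (n : ℕ) (κ : Fin n → ℤ), StrictMono κ → {a | IsMonotoneTriangle n κ a}.Finite) ∧
    (∀ n : ℕ, ∃! P : MvPolynomial (Fin n) ℚ, IsAlpha n P) ∧
    ∀ n k i : ℕ, 1 ≤ n → 1 ≤ k → k ≤ n → 1 ≤ i → i ≤ n - k + 1 →
      (sigma n k i).length = n + k ∧
      ∀ (P : MvPolynomial (Fin n) ℚ) (Q : MvPolynomial (Fin (n + k)) ℚ),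
        IsAlpha n P → IsAlpha (n + k) Q →
          MvPolynomial.eval (fun j : Fin n => ((j : ℕ) : ℚ) + 1) P
            = MvPolynomial.eval (fun j : Fin (n + k) => (((sigma n k i).getD j 0 : ℕ) : ℚ)) Q := by
  refine ⟨fun n κ h => finite_triangles h, fun n => ?_, ?_⟩
  · obtain ⟨P, hP⟩ := LibMT.exists_poly n
    exact ⟨P, isAlpha_of_forall hP, fun Q hQ => hQ.unique (isAlpha_of_forall hP)⟩
  · intro n k i _ _ hkn hi hin
    refine ⟨sigma_length hkn hi hin, fun P Q hP hQ => ?_⟩
    have h1 := hP.eval (fun j : Fin n => ((j : ℕ) : ℤ) + 1)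
    have h2 := hQ.eval (fun j : Fin (n + k) => (((sigma n k i).getD j 0 : ℕ) : ℤ))
    push_cast at h1 h2
    rw [h1, h2]
    obtain ⟨i', rfl⟩ : ∃ i', i = i' + 1 := ⟨i - 1, by omega⟩
    obtain ⟨j', hj'⟩ : ∃ j', n = k + (i' + j') := ⟨n - k - i', by omega⟩
    have hid := LibMT.alphaN_identity_int k i' j'
    have e1 : List.ofFn (fun j : Fin n => ((j : ℕ) : ℤ) + 1) = LibMT.R 1 (k + (i' + j')) := by
      have := LibMT.R_eq_map 1 n
      rw [Nat.cast_one] at this
      rw [← hj', this]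
      refine List.ext_getElem (by simp) fun m h1 h2 => ?_
      simp
      ring
    have e2 : List.ofFn (fun j : Fin (n + k) => (((sigma n k (i' + 1)).getD j 0 : ℕ) : ℤ))
        = LibMT.R 1 i' ++ LibMT.B k ((i' : ℤ) + 1) ++ LibMT.R ((i' : ℤ) + 1 + k) j' := by
      have e3 : List.ofFn (fun j : Fin (n + k) => (((sigma n k (i' + 1)).getD j 0 : ℕ) : ℤ))
          = (sigma n k (i' + 1)).map (fun x : ℕ => (x : ℤ)) := by
        refine List.ext_getElem (by simp [sigma_length hkn hi hin]) fun m h1 h2 => ?_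
        rw [List.getElem_ofFn, List.getElem_map]
        simp only
        rw [List.getD_eq_getElem]
      rw [e3, sigma, List.map_append, List.map_append, Nat.add_sub_cancel]
      have e4 := LibMT.R_eq_map 1 i'
      have e5 := LibMT.B_eq_map k (i' + 1)
      have e6 := LibMT.R_eq_map (i' + 1 + k) j'
      rw [Nat.cast_one] at e4
      push_cast at e5 e6
      have e7 : n + 1 - (i' + 1 + k) = j' := by omega
      rw [e7, e4, e5, e6]
    rw [e1, e2]
    have e8 : n + k = 2 * k + (i' + j') := by omega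
    rw [e8, hid, hj']

end Pool.Agent.Results.MP_b8c61a_co.ReverseDuplicate
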